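import Pool.Agent.H752.GM.Stubs
import Pool.Agent.H620R2.GaugeR.R11

/-!
# M4: the choice of the inputs (task of project GM, by helper674)
-/

set_option autoImplicit false

namespace Pool.Agent.H752.GM

open Pool.Agent.NPC Pool.Agent.H620R2.Gauge Finset H568R2

namespace TM4

theorem cond_half {f : ℕ → ℝ} (h : Cond1 (fun N => f N / 2)) : Cond1 f := by
  obtain ⟨C, hC⟩ := h
  refine ⟨C + 1, ?_⟩
  filter_upwards [hC, Filter.eventually_ge_atTop 4] with N hN hN4
  obtain ⟨N', h1, h2⟩ := hN
  refine ⟨N', h1, ?_⟩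
  have h3 : (2 : ℝ) ≤ Real.logb 2 N := by
    rw [Real.le_logb_iff_rpow_le (by norm_num) (by positivity)]
    norm_num
    exact hN4
  have h4 : (0 : ℝ) ≤ (Real.logb 2 N) ^ C := by positivity
  rw [pow_succ]
  have h2' : f N' / 2 ≤ (Real.logb 2 N) ^ C := h2
  have h5 : f N' ≤ 2 * (Real.logb 2 N) ^ C := by
    linarith
  nlinarith

theorem len_pair (x w : List Bool) : (pairBits x w).length = 2 * x.length + 1 + w.length := by
  simp only [pairBits, List.length_append, List.length_flatMap, List.length_cons,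
    List.length_nil, List.map_const', List.sum_replicate, smul_eq_mul]
  omega

theorem pair_inj {x w x' w' : List Bool} (h : pairBits x w = pairBits x' w') :
    x = x' ∧ w = w' := by
  have h1 := congrArg unpair h
  rw [unpair_pairBits, unpair_pairBits] at h1
  exact ⟨congrArg Prod.fst h1, congrArg Prod.snd h1⟩

theorem nm_le (x : List Bool) : nm x ≤ 2 ^ (kk x + 1) := by
  have h1 : x.length + 1 ≤ 2 ^ x.length.size := Nat.lt_size_self _
  have h2 : 2 * x.length.size + 5 ≤ kk x + 1 := by
    unfold kk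
    nlinarith [Nat.zero_le (ones x * x.length.size)]
  calc nm x = 3 * x.length + 10 := rfl
    _ ≤ 32 * ((x.length + 1) * (x.length + 1)) := by nlinarith
    _ ≤ 32 * (2 ^ x.length.size * 2 ^ x.length.size) :=
        Nat.mul_le_mul_left _ (Nat.mul_le_mul h1 h1)
    _ = 2 ^ (2 * x.length.size + 5) := by
        rw [pow_add, two_mul, pow_add]; ring
    _ ≤ _ := Nat.pow_le_pow_right (by norm_num) h2

theorem idx_lt_of_length {y z : List Bool} (h : y.length < z.length) : idx y < idx z := by
  have h1 := idx_lt y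
  have h2 := le_idx z
  have h3 : 2 ^ (y.length + 1) ≤ 2 ^ z.length := Nat.pow_le_pow_right (by norm_num) h
  omega

end TM4

open TM4

/-- M4: the choice of the inputs. -/
theorem t_seq : St_seq := by
  classical
  intro f hf P Q
  obtain ⟨x, h1, h2, h3, c, hc⟩ :=
    choose_seq (fun N => f N / 2) (fun h => hf (cond_half h)) P Q
  refine ⟨x, h1, h2, h3, 2 * c, fun N => ?_⟩
  have h4 := hc N
  set Tb := (Finset.range N).filter (fun i => str i ∈ blkR x) with hTb
  set Tm := (Finset.range N).filter
    (fun i => ∃ j t, t < nm (x j) ∧ str i = mkS (x j) t) with hTm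
  have hmb : Tm.card ≤ Tb.card := by
    refine Finset.card_le_card_of_forall_subsingleton
      (fun i b => ∃ j t, t < nm (x j) ∧ str i = mkS (x j) t ∧
        str b = pairBits (x j) (bitsOf (kk (x j) + 1) t)) ?_ ?_
    · intro i hi
      rw [hTm, Finset.mem_filter, Finset.mem_range] at hi
      obtain ⟨hiN, j, t, ht, hs⟩ := hi
      refine ⟨idx (pairBits (x j) (bitsOf (kk (x j) + 1) t)), ?_, j, t, ht, hs, str_idx _⟩
      rw [hTb, Finset.mem_filter, Finset.mem_range, str_idx]
      refine ⟨?_, j, _, length_bitsOf _ _, rfl⟩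
      have h5 : idx (pairBits (x j) (bitsOf (kk (x j) + 1) t)) < idx (mkS (x j) t) := by
        apply idx_lt_of_length
        unfold mkS
        rw [len_pair, len_pair, length_bitsOf, List.length_replicate]
        omega
      rw [← hs, idx_str] at h5
      omega
    · intro b _ i hi i' hi'
      obtain ⟨_, j, t, ht, hs, hb⟩ := hi
      obtain ⟨_, j', t', ht', hs', hb'⟩ := hi'
      rw [hb] at hb'
      obtain ⟨e1, e2⟩ := pair_inj hb'
      rw [← e1] at e2 ht' hs'
      have e3 := bitsOf_inj (lt_of_lt_of_le ht (nm_le _)) (lt_of_lt_of_le ht' (nm_le _)) e2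
      rw [← e3] at hs'
      exact str_injective (hs.trans hs'.symm)
  have hsub : (Finset.range N).filter
      (fun i => str i ∈ {y : List Bool | ∃ j, y ∈ blk (x j)}) ⊆ Tb ∪ Tm := by
    intro i hi
    rw [Finset.mem_filter] at hi
    obtain ⟨hiN, j, hj⟩ := hi
    rw [Finset.mem_union, hTb, hTm, Finset.mem_filter, Finset.mem_filter]
    rcases hj with ⟨v, hv, he⟩ | ⟨t, ht, he⟩
    · exact Or.inl ⟨hiN, j, v, hv, he⟩
    · exact Or.inr ⟨hiN, j, t, ht, he⟩
  have h6 := (Finset.card_le_card hsub).trans (Finset.card_union_le _ _)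
  have h7 : (((Finset.range N).filter
      (fun i => str i ∈ {y : List Bool | ∃ j, y ∈ blk (x j)})).card : ℝ) ≤
      (Tb.card : ℝ) + Tm.card := by exact_mod_cast h6
  have h8 : (Tm.card : ℝ) ≤ Tb.card := by exact_mod_cast hmb
  linarith

end Pool.Agent.H752.GM
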